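import Pool.Agent.Helper43.LO.Goals

set_option autoImplicit false

/-!
# Project LO, packet BLK: exact value of `W` for the block colouring
-/

namespace Pool.Agent.Helper50.LO

open Finset Pool.Agent.Helper33.Schur Pool.Agent.Helper43.LO

theorem card_blocks (m B : ℕ) (P : ℕ → Prop) [DecidablePred P] :
    ((Icc 1 (B * m)).filter P).card =
      ∑ i ∈ range B, ((Icc 1 m).filter (fun u => P (i * m + u))).card := by
  induction B with
  | zero => simp
  | succ B ih =>
    rw [sum_range_succ, ← ih]
    have h1 : (Icc 1 ((B + 1) * m)).filter P =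
        (Icc 1 (B * m)).filter P ∪ (Ioc (B * m) ((B + 1) * m)).filter P := by
      rw [← filter_union]
      congr 1
      ext x
      have hle : B * m ≤ (B + 1) * m := Nat.mul_le_mul_right m (Nat.le_succ B)
      rw [mem_union, mem_Icc, mem_Icc, mem_Ioc]
      omega
    have h2 : Disjoint ((Icc 1 (B * m)).filter P) ((Ioc (B * m) ((B + 1) * m)).filter P) := by
      apply disjoint_filter_filter
      rw [disjoint_left]
      intro x hx hx'
      rw [mem_Icc] at hx
      rw [mem_Ioc] at hx'
      omega
    rw [h1, card_union_of_disjoint h2]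
    congr 1
    have hs : (B + 1) * m = B * m + m := by ring
    refine card_nbij' (fun x => x - B * m) (fun u => B * m + u) ?_ ?_ ?_ ?_
    · intro x hx
      have hx' : x ∈ (Ioc (B * m) ((B + 1) * m)).filter P := hx
      rw [mem_filter, mem_Ioc, hs] at hx'
      show x - B * m ∈ (Icc 1 m).filter (fun u => P (B * m + u))
      rw [mem_filter, mem_Icc]
      refine ⟨by omega, ?_⟩
      rw [Nat.add_sub_cancel' hx'.1.1.le]
      exact hx'.2
    · intro u hu
      have hu' : u ∈ (Icc 1 m).filter (fun u => P (B * m + u)) := hu
      rw [mem_filter, mem_Icc] at hu'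
      show B * m + u ∈ (Ioc (B * m) ((B + 1) * m)).filter P
      rw [mem_filter, mem_Ioc, hs]
      exact ⟨by omega, hu'.2⟩
    · intro x hx
      have hx' : x ∈ (Ioc (B * m) ((B + 1) * m)).filter P := hx
      rw [mem_filter, mem_Ioc] at hx'
      show B * m + (x - B * m) = x
      omega
    · intro u _
      show B * m + u - B * m = u
      omega

theorem col_block (m i u : ℕ) (hu : 1 ≤ u) (hum : u ≤ m) : col m (i * m + u) = blk i := by
  unfold col
  have h1 : i * m + u - 1 = m * i + (u - 1) := by
    rw [mul_comm m i]; omega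
  rw [h1, Nat.mul_add_div (by omega), Nat.div_eq_of_lt (by omega), add_zero]

theorem sum_part (m : ℕ) (c : Fin 3) (k t : ℕ) (ht : 1 ≤ t) (htm : t ≤ m) :
    ((Icc 1 (k * m + t - 1)).filter
      (fun x => col m x = c ∧ col m (k * m + t - x) = c)).card =
      (t - 1) * Sb c k + (m - t + 1) * Sp c k := by
  have h1 : (Icc 1 (k * m + t - 1)).filter
      (fun x => col m x = c ∧ col m (k * m + t - x) = c) =
      (Icc 1 ((k + 1) * m)).filter
        (fun x => x < k * m + t ∧ col m x = c ∧ col m (k * m + t - x) = c) := by
    have hs : (k + 1) * m = k * m + m := by ring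
    ext x
    rw [mem_filter, mem_filter, mem_Icc, mem_Icc, hs]
    constructor
    · rintro ⟨⟨h1, h2⟩, h3⟩
      exact ⟨⟨h1, by omega⟩, by omega, h3⟩
    · rintro ⟨⟨h1, h2⟩, h3, h4⟩
      exact ⟨⟨h1, by omega⟩, h4⟩
  rw [h1, card_blocks]
  have h2 : ∀ i ∈ range (k + 1), ((Icc 1 m).filter (fun u => i * m + u < k * m + t ∧
      col m (i * m + u) = c ∧ col m (k * m + t - (i * m + u)) = c)).card =
      (t - 1) * (if blk i = c ∧ blk (k - i) = c then 1 else 0) +
        (m - t + 1) * (if i < k ∧ blk i = c ∧ blk (k - 1 - i) = c then 1 else 0) := by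
    intro i hi
    rw [mem_range] at hi
    have hik : i * m ≤ k * m := Nat.mul_le_mul_right m (by omega)
    have hd : k * m = i * m + (k - i) * m := by
      rw [← add_mul]; congr 1; omega
    have e1 : (Icc 1 m).filter (fun u => i * m + u < k * m + t ∧
        col m (i * m + u) = c ∧ col m (k * m + t - (i * m + u)) = c) =
        ((Ico 1 t).filter (fun _ => blk i = c ∧ blk (k - i) = c)) ∪
        ((Icc t m).filter (fun _ => i < k ∧ blk i = c ∧ blk (k - 1 - i) = c)) := by
      ext u
      rw [mem_union, mem_filter, mem_filter, mem_filter, mem_Icc, mem_Ico, mem_Icc]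
      by_cases hu : 1 ≤ u ∧ u ≤ m
      · rw [col_block m i u hu.1 hu.2]
        by_cases hut : u < t
        · have e2 : k * m + t - (i * m + u) = (k - i) * m + (t - u) := by omega
          rw [e2, col_block m (k - i) (t - u) (by omega) (by omega)]
          constructor
          · rintro ⟨_, _, h5⟩
            exact Or.inl ⟨⟨hu.1, hut⟩, h5⟩
          · rintro (⟨_, h5⟩ | ⟨h6, _⟩)
            · exact ⟨hu, by omega, h5⟩
            · omega
        · by_cases hik' : i < k
          · have e3 : (k - i) * m = (k - 1 - i) * m + m := by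
              have : k - i = (k - 1 - i) + 1 := by omega
              rw [this]; ring
            have e2 : k * m + t - (i * m + u) = (k - 1 - i) * m + (m + t - u) := by omega
            rw [e2, col_block m (k - 1 - i) (m + t - u) (by omega) (by omega)]
            constructor
            · rintro ⟨_, _, h5⟩
              exact Or.inr ⟨⟨by omega, hu.2⟩, hik', h5⟩
            · rintro (⟨h6, _⟩ | ⟨_, _, h5⟩)
              · omega
              · exact ⟨hu, by omega, h5⟩
          · have hik2 : i = k := by omega
            subst hik2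
            constructor
            · rintro ⟨_, h6, _⟩
              omega
            · rintro (⟨h6, _⟩ | ⟨_, h6, _⟩)
              · omega
              · omega
      · constructor
        · rintro ⟨h6, _⟩
          exact absurd h6 hu
        · rintro (⟨h6, _⟩ | ⟨h6, _⟩)
          · exact absurd ⟨h6.1, by omega⟩ hu
          · exact absurd ⟨by omega, h6.2⟩ hu
    have e2 : Disjoint ((Ico 1 t).filter (fun _ => blk i = c ∧ blk (k - i) = c))
        ((Icc t m).filter (fun _ => i < k ∧ blk i = c ∧ blk (k - 1 - i) = c)) := by
      apply disjoint_filter_filter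
      rw [disjoint_left]
      intro x hx hx'
      rw [mem_Ico] at hx
      rw [mem_Icc] at hx'
      omega
    rw [e1, card_union_of_disjoint e2, filter_const, filter_const]
    congr 1
    · split_ifs with h
      · rw [Nat.card_Ico, mul_one]
      · rw [card_empty, mul_zero]
    · split_ifs with h
      · rw [Nat.card_Icc, mul_one]; omega
      · rw [card_empty, mul_zero]
  rw [sum_congr rfl h2, sum_add_distrib, ← mul_sum, ← mul_sum, ← card_filter, ← card_filter]
  congr 2
  unfold Sp
  by_cases hk : k = 0
  · rw [if_pos hk, card_eq_zero, filter_eq_empty_iff]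
    intro i _ h
    omega
  · rw [if_neg hk]
    unfold Sb
    congr 1
    ext i
    rw [mem_filter, mem_filter, mem_range, mem_range]
    constructor
    · rintro ⟨_, h5, h6⟩
      exact ⟨by omega, h6⟩
    · rintro ⟨h5, h6⟩
      exact ⟨by omega, by omega, h6⟩

theorem dif_part (m : ℕ) (c : Fin 3) (k t : ℕ) (hk : k ≤ 66) (ht : 1 ≤ t) (htm : t ≤ m) :
    ((Icc 1 (67 * m - (k * m + t))).filter
      (fun x => col m x = c ∧ col m (x + (k * m + t)) = c)).card =
      (m - t) * Db c k + t * Db c (k + 1) := by
  have hs : 67 * m = (67 - k) * m + k * m := by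
    rw [← add_mul]; congr 1; omega
  have h1 : (Icc 1 (67 * m - (k * m + t))).filter
      (fun x => col m x = c ∧ col m (x + (k * m + t)) = c) =
      (Icc 1 ((67 - k) * m)).filter
        (fun x => x + (k * m + t) ≤ 67 * m ∧ col m x = c ∧ col m (x + (k * m + t)) = c) := by
    ext x
    rw [mem_filter, mem_filter, mem_Icc, mem_Icc]
    constructor
    · rintro ⟨⟨h1, h2⟩, h3⟩
      exact ⟨⟨h1, by omega⟩, by omega, h3⟩
    · rintro ⟨⟨h1, h2⟩, h3, h4⟩
      exact ⟨⟨h1, by omega⟩, h4⟩
  rw [h1, card_blocks]
  have h2 : ∀ i ∈ range (67 - k), ((Icc 1 m).filter (fun u =>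
      i * m + u + (k * m + t) ≤ 67 * m ∧
      col m (i * m + u) = c ∧ col m (i * m + u + (k * m + t)) = c)).card =
      (m - t) * (if blk i = c ∧ blk (i + k) = c then 1 else 0) +
        t * (if i + k + 1 ≤ 66 ∧ blk i = c ∧ blk (i + (k + 1)) = c then 1 else 0) := by
    intro i hi
    rw [mem_range] at hi
    have hb1 : (i + k) * m + m ≤ 67 * m := by
      have : (i + k + 1) * m ≤ 67 * m := Nat.mul_le_mul_right m (by omega)
      calc (i + k) * m + m = (i + k + 1) * m := by ring
        _ ≤ 67 * m := this
    have hik : (i + k) * m = i * m + k * m := by ring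
    have e1 : (Icc 1 m).filter (fun u => i * m + u + (k * m + t) ≤ 67 * m ∧
        col m (i * m + u) = c ∧ col m (i * m + u + (k * m + t)) = c) =
        ((Icc 1 (m - t)).filter (fun _ => blk i = c ∧ blk (i + k) = c)) ∪
        ((Ioc (m - t) m).filter
          (fun _ => i + k + 1 ≤ 66 ∧ blk i = c ∧ blk (i + (k + 1)) = c)) := by
      ext u
      rw [mem_union, mem_filter, mem_filter, mem_filter, mem_Icc, mem_Icc, mem_Ioc]
      by_cases hu : 1 ≤ u ∧ u ≤ m
      · rw [col_block m i u hu.1 hu.2]
        by_cases hut : u ≤ m - t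
        · have e2 : i * m + u + (k * m + t) = (i + k) * m + (t + u) := by omega
          rw [e2, col_block m (i + k) (t + u) (by omega) (by omega)]
          constructor
          · rintro ⟨_, _, h5⟩
            exact Or.inl ⟨⟨hu.1, hut⟩, h5⟩
          · rintro (⟨_, h5⟩ | ⟨h6, _⟩)
            · exact ⟨hu, by omega, h5⟩
            · omega
        · have e3 : (i + (k + 1)) * m = i * m + k * m + m := by ring
          have e2 : i * m + u + (k * m + t) = (i + (k + 1)) * m + (t + u - m) := by omega
          rw [e2, col_block m (i + (k + 1)) (t + u - m) (by omega) (by omega)]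
          constructor
          · rintro ⟨_, h6, h5⟩
            refine Or.inr ⟨⟨by omega, hu.2⟩, ?_, h5⟩
            by_contra h7
            have h8 : 67 * m ≤ (i + (k + 1)) * m := Nat.mul_le_mul_right m (by omega)
            omega
          · rintro (⟨h6, _⟩ | ⟨_, h7, h5⟩)
            · omega
            · refine ⟨hu, ?_, h5⟩
              have h8 : (i + (k + 1) + 1) * m ≤ 67 * m := Nat.mul_le_mul_right m (by omega)
              have h9 : (i + (k + 1) + 1) * m = (i + (k + 1)) * m + m := by ring
              omega
      · constructor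
        · rintro ⟨h6, _⟩
          exact absurd h6 hu
        · rintro (⟨h6, _⟩ | ⟨h6, _⟩)
          · exact absurd ⟨h6.1, by omega⟩ hu
          · exact absurd ⟨by omega, h6.2⟩ hu
    have e2 : Disjoint ((Icc 1 (m - t)).filter (fun _ => blk i = c ∧ blk (i + k) = c))
        ((Ioc (m - t) m).filter
          (fun _ => i + k + 1 ≤ 66 ∧ blk i = c ∧ blk (i + (k + 1)) = c)) := by
      apply disjoint_filter_filter
      rw [disjoint_left]
      intro x hx hx'
      rw [mem_Icc] at hx
      rw [mem_Ioc] at hx'
      omega
    rw [e1, card_union_of_disjoint e2, filter_const, filter_const]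
    congr 1
    · split_ifs with h
      · rw [Nat.card_Icc, mul_one]; omega
      · rw [card_empty, mul_zero]
    · split_ifs with h
      · rw [Nat.card_Ioc, mul_one]; omega
      · rw [card_empty, mul_zero]
  rw [sum_congr rfl h2, sum_add_distrib, ← mul_sum, ← mul_sum, ← card_filter, ← card_filter]
  unfold Db
  congr 3
  ext i
  rw [mem_filter, mem_filter, mem_range, mem_range]
  constructor
  · rintro ⟨_, h5, h6⟩
    exact ⟨by omega, h6⟩
  · rintro ⟨h5, h6⟩
    exact ⟨by omega, by omega, h6⟩

theorem goalBLK : G_BLK := by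
  intro m c k t hm hk ht htm
  unfold W
  rw [sum_part m c k t ht htm, dif_part m c k t hk ht htm]

end Pool.Agent.Helper50.LO
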